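import Mathlib

/-!
# Exact Triangle with partly seen weights: the model

Definitions only.
-/

set_option autoImplicit false

namespace Pool.Agent.Helper36.PSW

/-- An instance of Exact Triangle on `n` vertices: an edge flag and an integer weight in every
cell of an `n × n` matrix. -/
structure Inst (n : ℕ) where
  flag : Fin n → Fin n → Bool
  wt : Fin n → Fin n → ℤ

/-- Valid instances: symmetric, loopless, all weights in `[-n^300, n^300]`. -/
def Inst.Valid {n : ℕ} (I : Inst n) : Prop :=
  (∀ i j, I.flag i j = I.flag j i) ∧ (∀ i, I.flag i i = false) ∧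
  (∀ i j, I.wt i j = I.wt j i) ∧ (∀ i j, |I.wt i j| ≤ (n : ℤ) ^ 300)

/-- Yes-instances: some triangle of edges has total weight zero. -/
def Inst.Yes {n : ℕ} (I : Inst n) : Prop :=
  ∃ i j k : Fin n, i ≠ j ∧ j ≠ k ∧ i ≠ k ∧
    I.flag i j = true ∧ I.flag j k = true ∧ I.flag i k = true ∧
    I.wt i j + I.wt j k + I.wt i k = 0

/-- One step of an algorithm: the computation of the value `f(w)` of a real polynomial in all the
weights, the sign of the affine form `b + ∑ a i j * w i j`, or the inspection of one bit `φ (w i j)`
of the weight `w i j`. -/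
inductive Step (n : ℕ)
  | value (f : MvPolynomial (Fin n × Fin n) ℝ)
  | sign (a : Fin n → Fin n → ℤ) (b : ℤ)
  | bit (i j : Fin n) (φ : ℤ → Bool)

/-- The value of the polynomial `f` at the weights. -/
noncomputable def evalP {n : ℕ} (f : MvPolynomial (Fin n × Fin n) ℝ) (I : Inst n) : ℝ :=
  MvPolynomial.eval (fun q => (I.wt q.1 q.2 : ℝ)) f

/-- The value of the affine form at the weights. -/
def evalZ {n : ℕ} (a : Fin n → Fin n → ℤ) (b : ℤ) (I : Inst n) : ℤ :=
  b + ∑ i, ∑ j, a i j * I.wt i j

open Classical in
/-- The effect of a step. The state consists of the list of the answers given so far (all that the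
algorithm sees) and of the list of the values computed so far (hidden from it). The answer to `value`
is the position of the first earlier computed value that is equal to the new value, and the
number of the earlier values if there is none. The answer to `sign` is `0` for negative, `1` for
zero, `2` for positive. -/
noncomputable def act {n : ℕ} (I : Inst n) (st : List ℕ × List ℝ) : Step n → List ℕ × List ℝ
  | .value f => (st.1 ++ [st.2.idxOf (evalP f I)], st.2 ++ [evalP f I])
  | .sign a b => (st.1 ++ [if evalZ a b I < 0 then 0 else if evalZ a b I = 0 then 1 else 2], st.2)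
  | .bit i j φ => (st.1 ++ [(φ (I.wt i j)).toNat], st.2)

/-- A randomized algorithm with `L` steps and `R` uniformly random bits. The flags are known to it
from the start; the next step and the final output are arbitrary functions of the flags, the
random bits and the answers received so far. -/
structure Alg (n L R : ℕ) where
  next : (Fin n → Fin n → Bool) → (Fin R → Bool) → List ℕ → Step n
  out : (Fin n → Fin n → Bool) → (Fin R → Bool) → List ℕ → Bool

variable {n L R : ℕ}

/-- The state after `t` steps, on the instance `I`, for the random bits `ρ`. -/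
noncomputable def Alg.state (A : Alg n L R) (I : Inst n) (ρ : Fin R → Bool) (t : ℕ) :
    List ℕ × List ℝ :=
  (fun st => act I st (A.next I.flag ρ st.1))^[t] ([], [])

/-- The step after `t` steps. -/
noncomputable def Alg.step (A : Alg n L R) (I : Inst n) (ρ : Fin R → Bool) (t : ℕ) : Step n :=
  A.next I.flag ρ (A.state I ρ t).1

/-- At most `D` steps are queries, that is, of the kind `value` or `sign`, on every valid instance. -/
def Alg.Queries (A : Alg n L R) (D : ℕ) : Prop :=
  ∀ I : Inst n, I.Valid → ∀ ρ, {t | t < L ∧ ∀ i j φ, A.step I ρ t ≠ .bit i j φ}.ncard ≤ D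

/-- At most `B` bits are inspected in total on every valid instance. -/
def Alg.TotalBits (A : Alg n L R) (B : ℕ) : Prop :=
  ∀ I : Inst n, I.Valid → ∀ ρ, {t | t < L ∧ ∃ i j φ, A.step I ρ t = .bit i j φ}.ncard ≤ B

/-- At most `b` bits of every weight are inspected on every valid instance. -/
def Alg.EachBits (A : Alg n L R) (b : ℕ) : Prop :=
  ∀ I : Inst n, I.Valid → ∀ ρ i j,
    {t | t < L ∧ ∃ φ, A.step I ρ t = .bit i j φ ∨ A.step I ρ t = .bit j i φ}.ncard ≤ b

/-- The form `∑ a i j * w i j` is not determined by the triangle sums: some change `δ` of the weights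
of the edges keeps all triangle sums and changes the form. -/
def Moves (fl : Fin n → Fin n → Bool) (a : Fin n → Fin n → ℤ) : Prop :=
  ∃ δ : Fin n → Fin n → ℤ, (∀ i j, δ i j = δ j i) ∧ (∀ i j, fl i j = false → δ i j = 0) ∧
    (∀ i j k, i ≠ j → j ≠ k → i ≠ k → fl i j = true → fl j k = true → fl i k = true →
      δ i j + δ j k + δ i k = 0) ∧
    ∑ i, ∑ j, a i j * δ i j ≠ 0

/-- The polynomials have degree at most `Δ`. The affine forms are in at most 20 weights, with
coefficients and constant at most `n ^ 8` in absolute value, and `Moves`. There is no condition on the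
inspected bits: a bit of a weight is an arbitrary `{0,1}`-valued function of this weight. -/
def Alg.LowDegree (A : Alg n L R) (Δ : ℝ) : Prop :=
  (∀ fl ρ ans f, A.next fl ρ ans = .value f → (f.totalDegree : ℝ) ≤ Δ) ∧
  ∀ fl ρ ans a b, A.next fl ρ ans = .sign a b →
    {p : Fin n × Fin n | a p.1 p.2 ≠ 0}.ncard ≤ 20 ∧ (∀ i j, |a i j| ≤ (n : ℤ) ^ 8) ∧
      |b| ≤ (n : ℤ) ^ 8 ∧ Moves fl a

/-- The algorithm decides Exact Triangle: on every valid instance the output is correct for at
least two thirds of the values of the random bits. -/
def Alg.Decides (A : Alg n L R) : Prop :=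
  ∀ I : Inst n, I.Valid → 2 * 2 ^ R ≤
    3 * {ρ : Fin R → Bool | A.out I.flag ρ (A.state I ρ L).1 = true ↔ I.Yes}.ncard

end Pool.Agent.Helper36.PSW
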