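import Mathlib
import Pool.Agent.Helper36.CR.Bits
import Pool.Agent.Helper36.PSW.Defs

/-!
# Exact Triangle with partly seen weights: from the model of `Helper8/LK` to the short one
-/

set_option autoImplicit false

namespace Pool.Agent.Helper36.PSW

open Pool.Agent.Helper8.LK (LAlg Act)
open Pool.Agent.Helper22.ETModel (Query)

variable {n L R : ℕ}

def toI (I : Inst n) : Pool.Agent.Helper22.ETModel.Inst n := ⟨I.flag, I.wt⟩

def toA : Step n → Act n
  | .value f => .query (.value f)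
  | .sign a b => .query (.sign a b)
  | .bit i j φ => .bit i j φ

def ofA : Act n → Step n
  | .query (.value f) => .value f
  | .query (.sign a b) => .sign a b
  | .bit i j φ => .bit i j φ

lemma toA_ofA (x : Act n) : toA (ofA x) = x := by
  rcases x with (_ | _) | _ <;> rfl

def toL (A : Alg n L R) : LAlg n L R := ⟨fun fl ρ l => toA (A.next fl ρ l), A.out⟩

def ofL (A : LAlg n L R) : Alg n L R := ⟨fun fl ρ l => ofA (A.next fl ρ l), A.out⟩

lemma toL_ofL (A : LAlg n L R) : toL (ofL A) = A := by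
  unfold toL ofL
  simp only [toA_ofA]

lemma act_toA (I : Inst n) (st : List ℕ × List ℝ) (x : Step n) :
    Pool.Agent.Helper8.LK.act (toI I) st (toA x) = act I st x := by
  cases x <;> rfl

lemma run_toL (A : Alg n L R) (I : Inst n) (ρ : Fin R → Bool) (t : ℕ) :
    (toL A).run (toI I) ρ t = A.state I ρ t := by
  induction t with
  | zero => rfl
  | succ t ih =>
    show Pool.Agent.Helper8.LK.act (toI I) ((toL A).run (toI I) ρ t)
      (toA (A.next I.flag ρ ((toL A).run (toI I) ρ t).1)) = _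
    rw [ih, act_toA]
    unfold Alg.state
    rw [Function.iterate_succ_apply']

lemma next_toL (A : Alg n L R) (I : Inst n) (ρ : Fin R → Bool) (t : ℕ) :
    (toL A).next (toI I).flag ρ ((toL A).run (toI I) ρ t).1 = toA (A.step I ρ t) := by
  rw [run_toL]
  rfl

lemma toA_query (x : Step n) : (∃ q, toA x = Act.query q) ↔ ∀ i j φ, x ≠ .bit i j φ := by
  cases x <;> simp [toA]

lemma toA_bit (x : Step n) (i j : Fin n) (φ : ℤ → Bool) :
    toA x = Act.bit i j φ ↔ x = .bit i j φ := by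
  cases x <;> simp [toA]

lemma card_range {P Q : ℕ → Prop} {_ : DecidablePred Q} (h : ∀ t, Q t ↔ P t) :
    ((Finset.range L).filter Q).card = {t | t < L ∧ P t}.ncard := by
  rw [← Set.ncard_coe_finset]
  congr 1
  ext t
  simp [h]

lemma card_univ {X : Type} [Fintype X] {P Q : X → Prop} {_ : DecidablePred Q}
    (h : ∀ t, Q t ↔ P t) : (Finset.univ.filter Q).card = {t | P t}.ncard := by
  rw [← Set.ncard_coe_finset]
  congr 1
  ext t
  simp [h]

lemma queries_toL (A : Alg n L R) (I : Inst n) (ρ : Fin R → Bool) :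
    (toL A).queries (toI I) ρ = {t | t < L ∧ ∀ i j φ, A.step I ρ t ≠ .bit i j φ}.ncard := by
  unfold LAlg.queries
  exact card_range fun t => by rw [next_toL, toA_query]

lemma bits_toL (A : Alg n L R) (I : Inst n) (ρ : Fin R → Bool) (i j : Fin n) :
    (toL A).bits (toI I) ρ i j =
      {t | t < L ∧ ∃ φ, A.step I ρ t = .bit i j φ ∨ A.step I ρ t = .bit j i φ}.ncard := by
  unfold LAlg.bits
  exact card_range fun t => by rw [next_toL]; simp only [toA_bit]

lemma inspected_toL (A : Alg n L R) (I : Inst n) (ρ : Fin R → Bool) :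
    Pool.Agent.Helper7.LKX.inspected (toL A) (toI I) ρ =
      {t | t < L ∧ ∃ i j φ, A.step I ρ t = .bit i j φ}.ncard := by
  unfold Pool.Agent.Helper7.LKX.inspected
  exact card_range fun t => by rw [next_toL]; simp only [toA_bit]

lemma within_iff (A : Alg n L R) (D b : ℕ) :
    (toL A).Within D b ↔ A.Queries D ∧ A.EachBits b := by
  constructor
  · intro h
    refine ⟨fun I hI ρ => ?_, fun I hI ρ i j => ?_⟩
    · rw [← queries_toL]; exact (h (toI I) hI ρ).1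
    · rw [← bits_toL]; exact (h (toI I) hI ρ).2 i j
  · rintro ⟨h1, h2⟩ J hJ ρ
    have e1 := h1 ⟨J.flag, J.wt⟩ hJ ρ
    rw [← queries_toL] at e1
    refine ⟨e1, fun i j => ?_⟩
    have e2 := h2 ⟨J.flag, J.wt⟩ hJ ρ i j
    rw [← bits_toL] at e2
    exact e2

lemma withinTotal_iff (A : Alg n L R) (D B : ℕ) :
    Pool.Agent.Helper7.LKX.WithinTotal (toL A) D B ↔ A.Queries D ∧ A.TotalBits B := by
  constructor
  · intro h
    refine ⟨fun I hI ρ => ?_, fun I hI ρ => ?_⟩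
    · rw [← queries_toL]; exact (h (toI I) hI ρ).1
    · rw [← inspected_toL]; exact (h (toI I) hI ρ).2
  · rintro ⟨h1, h2⟩ J hJ ρ
    have e1 := h1 ⟨J.flag, J.wt⟩ hJ ρ
    rw [← queries_toL] at e1
    have e2 := h2 ⟨J.flag, J.wt⟩ hJ ρ
    rw [← inspected_toL] at e2
    exact ⟨e1, e2⟩

lemma toA_value (x : Step n) (f : MvPolynomial (Fin n × Fin n) ℝ) :
    toA x = Act.query (Query.value f) ↔ x = .value f := by
  cases x <;> simp [toA]

lemma toA_sign (x : Step n) (a : Fin n → Fin n → ℤ) (b : ℤ) :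
    toA x = Act.query (Query.sign a b) ↔ x = .sign a b := by
  cases x <;> simp [toA]

lemma lowDegree_iff (A : Alg n L R) (Δ : ℝ) :
    Pool.Agent.Helper36.CR.LowDegree (toL A) Δ ↔ A.LowDegree Δ := by
  unfold Pool.Agent.Helper36.CR.LowDegree Alg.LowDegree Pool.Agent.Helper7.LK.SparseOK
  constructor
  · rintro ⟨h1, h2⟩
    refine ⟨fun fl ρ ans f hf => h1 fl ρ ans f ((toA_value _ f).2 hf), fun fl ρ ans a b hf => ?_⟩
    obtain ⟨⟨k1, k2, k3⟩, k4⟩ := h2 fl ρ ans a b ((toA_sign _ a b).2 hf)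
    refine ⟨?_, k2, k3, k4⟩
    rw [← card_univ fun _ => Iff.rfl]
    exact k1
  · rintro ⟨h1, h2⟩
    refine ⟨fun fl ρ ans f hf => h1 fl ρ ans f ((toA_value _ f).1 hf), fun fl ρ ans a b hf => ?_⟩
    obtain ⟨k1, k2, k3, k4⟩ := h2 fl ρ ans a b ((toA_sign _ a b).1 hf)
    refine ⟨⟨?_, k2, k3⟩, k4⟩
    rw [card_univ fun _ => Iff.rfl]
    exact k1

lemma decides_iff (A : Alg n L R) : (toL A).Decides ↔ A.Decides := by
  have key : ∀ (I : Inst n) (ρ : Fin R → Bool),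
      ((toL A).output (toI I) ρ = true ↔ (toI I).Yes) ↔
        (A.out I.flag ρ (A.state I ρ L).1 = true ↔ I.Yes) := by
    intro I ρ
    show (A.out I.flag ρ ((toL A).run (toI I) ρ L).1 = true ↔ I.Yes) ↔ _
    rw [run_toL]
  unfold LAlg.Decides Alg.Decides
  constructor
  · intro h I hI
    have h1 := h (toI I) hI
    rw [card_univ (key I)] at h1
    exact h1
  · intro h J hJ
    have h1 := h ⟨J.flag, J.wt⟩ hJ
    rw [← card_univ (key ⟨J.flag, J.wt⟩)] at h1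
    exact h1

theorem total {ε : ℝ} (hε : 0 < ε) : ∃ δ : ℝ, 0 < δ ∧ ∃ n₀ : ℕ, ∀ n ≥ n₀,
    ∀ (D B L R : ℕ) (A : Alg n L R), A.LowDegree ((n : ℝ) ^ δ) → A.Decides → A.Queries D →
      A.TotalBits B → (B : ℝ) ≤ δ * (n : ℝ) ^ 2 * Real.logb 2 n → (n : ℝ) ^ (3 - ε) ≤ D := by
  obtain ⟨δ, hδ, n₀, h⟩ := Pool.Agent.Helper36.CR.total_bound hε
  refine ⟨δ, hδ, n₀, fun n hn D B L R A h1 h2 h3 h4 h5 => h n hn D B L R (toL A)
    ((lowDegree_iff A _).2 h1) ((withinTotal_iff A D B).2 ⟨h3, h4⟩) h5 ((decides_iff A).2 h2)⟩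

theorem lower {β ε : ℝ} (hβ : β < 1) (hε : 0 < ε) : ∃ δ : ℝ, 0 < δ ∧ ∃ n₀ : ℕ, ∀ n ≥ n₀,
    ∀ (D b L R : ℕ) (A : Alg n L R), A.LowDegree ((n : ℝ) ^ δ) → A.Decides → A.Queries D →
      A.EachBits b → (b : ℝ) ≤ β * Real.logb 2 n → (n : ℝ) ^ (3 - β - ε) ≤ D := by
  obtain ⟨δ, hδ, n₀, h⟩ := Pool.Agent.Helper36.CR.each_lower hβ hε
  refine ⟨δ, hδ, n₀, fun n hn D b L R A h1 h2 h3 h4 h5 => h n hn D b L R (toL A)
    ((lowDegree_iff A _).2 h1) ((within_iff A D b).2 ⟨h3, h4⟩) h5 ((decides_iff A).2 h2)⟩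

theorem upper {β ε : ℝ} (h0 : 0 ≤ β) (hβ : β ≤ 1) (hε : 0 < ε) : ∃ n₀ : ℕ, ∀ n ≥ n₀,
    ∃ (D b L R : ℕ) (A : Alg n L R), A.LowDegree 1 ∧ A.Decides ∧ A.Queries D ∧ A.EachBits b ∧
      (b : ℝ) ≤ β * Real.logb 2 n ∧ (D : ℝ) ≤ (n : ℝ) ^ (3 - β + ε) := by
  obtain ⟨n₀, h⟩ := Pool.Agent.Helper36.CR.each_upper h0 hβ hε
  refine ⟨n₀, fun n hn => ?_⟩
  obtain ⟨D, b, L, R, B, h1, h2, h3, h4, h5⟩ := h n hn
  rw [← toL_ofL B] at h1 h2 h4
  exact ⟨D, b, L, R, ofL B, (lowDegree_iff _ _).1 h1, (decides_iff _).1 h4,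
    ((within_iff _ D b).1 h2).1, ((within_iff _ D b).1 h2).2, h3, h5⟩

end Pool.Agent.Helper36.PSW
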